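import Mathlib
import Pool.Agent.Results.MP_a05d5a_an.FiniteOrderDisproof

/-!
# The substitution `w = ε z ^ q` and sections of entire functions
-/

set_option autoImplicit false

namespace Pool.Agent.Y146.SV

open Pool.Agent.Results.MP_a05d5a_an.FiniteOrderDisproof Finset Filter

/-- The coefficients of `f(ε z ^ q)`. -/
noncomputable def pw (a : ℕ → ℂ) (ε : ℝ) (q : ℕ) (j : ℕ) : ℂ :=
  if q ∣ j then a (j / q) * (ε : ℂ) ^ (j / q) else 0

theorem pw_mul (a : ℕ → ℂ) (ε : ℝ) {q : ℕ} (hq : 0 < q) (k : ℕ) (z : ℂ) :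
    pw a ε q (q * k) * z ^ (q * k) = a k * ((ε : ℂ) * z ^ q) ^ k := by
  rw [pw, if_pos (Dvd.intro k rfl), Nat.mul_div_cancel_left k hq, pow_mul, mul_pow]
  ring

theorem partialSum_pw (a : ℕ → ℂ) (ε : ℝ) {q : ℕ} (hq : 0 < q) (m : ℕ) (z : ℂ) :
    partialSum (pw a ε q) m z = partialSum a (m / q) ((ε : ℂ) * z ^ q) := by
  unfold partialSum
  have h1 : ∑ j ∈ range (m + 1), pw a ε q j * z ^ j =
      ∑ j ∈ (range (m / q + 1)).image (fun k => q * k), pw a ε q j * z ^ j := by
    symm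
    apply Finset.sum_subset
    · intro j hj
      obtain ⟨k, hk, rfl⟩ := Finset.mem_image.1 hj
      rw [Finset.mem_range] at hk ⊢
      have h2 : q * (m / q) ≤ m := Nat.mul_div_le m q
      have h3 : q * k ≤ q * (m / q) := Nat.mul_le_mul_left q (by omega)
      omega
    · intro j hj hj'
      rw [pw, if_neg, zero_mul]
      rintro ⟨k, rfl⟩
      apply hj'
      rw [Finset.mem_range] at hj
      refine Finset.mem_image.2 ⟨k, ?_, rfl⟩
      rw [Finset.mem_range, Nat.lt_succ_iff, Nat.le_div_iff_mul_le hq, mul_comm]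
      omega
  rw [h1, Finset.sum_image]
  · exact Finset.sum_congr rfl fun k _ => pw_mul a ε hq k z
  · intro k _ k' _ h
    exact Nat.eq_of_mul_eq_mul_left hq h

theorem pw_support (a : ℕ → ℂ) (ε : ℝ) {q : ℕ} (z : ℂ) :
    Function.support (fun j => pw a ε q j * z ^ j) ⊆ Set.range (fun k => q * k) := by
  intro j hj
  by_contra h
  apply hj
  change pw a ε q j * z ^ j = 0
  rw [pw, if_neg, zero_mul]
  rintro ⟨k, rfl⟩
  exact h ⟨k, rfl⟩

theorem mul_inj {q : ℕ} (hq : 0 < q) : Function.Injective (fun k : ℕ => q * k) :=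
  fun _ _ h => Nat.eq_of_mul_eq_mul_left hq h

theorem entire_pw (a : ℕ → ℂ) (ε : ℝ) {q : ℕ} (hq : 0 < q) (ha : IsEntire a) :
    IsEntire (pw a ε q) := by
  intro z
  have h1 := ha ((ε : ℂ) * z ^ q)
  have h2 : Summable ((fun j => pw a ε q j * z ^ j) ∘ (fun k => q * k)) :=
    h1.congr fun k => (pw_mul a ε hq k z).symm
  refine (Function.Injective.summable_iff (mul_inj hq) ?_).1 h2
  intro j hj
  by_contra h
  exact hj (pw_support a ε z h)

theorem tsum_pw (a : ℕ → ℂ) (ε : ℝ) {q : ℕ} (hq : 0 < q) (z : ℂ) :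
    ∑' j, pw a ε q j * z ^ j = ∑' k, a k * ((ε : ℂ) * z ^ q) ^ k := by
  rw [← Function.Injective.tsum_eq (mul_inj hq) (pw_support a ε z)]
  exact tsum_congr fun k => pw_mul a ε hq k z

theorem maxModulus_pw (a : ℕ → ℂ) {ε : ℝ} (hε : 0 < ε) {q : ℕ} (hq : 0 < q) {r : ℝ} (hr : 0 ≤ r) :
    maxModulus (pw a ε q) r = maxModulus a (ε * r ^ q) := by
  unfold maxModulus
  congr 1
  ext y
  constructor
  · rintro ⟨z, hz, rfl⟩
    refine ⟨(ε : ℂ) * z ^ q, ?_, ?_⟩
    · rw [mem_sphere_zero_iff_norm] at hz ⊢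
      rw [norm_mul, norm_pow, hz, Complex.norm_real, Real.norm_of_nonneg hε.le]
    · change ‖∑' k, a k * ((ε : ℂ) * z ^ q) ^ k‖ = ‖∑' j, pw a ε q j * z ^ j‖
      rw [tsum_pw a ε hq z]
  · rintro ⟨w, hw, rfl⟩
    rw [mem_sphere_zero_iff_norm] at hw
    obtain ⟨z, hz⟩ := IsAlgClosed.exists_pow_nat_eq (w / (ε : ℂ)) hq
    have hε' : (ε : ℂ) ≠ 0 := by exact_mod_cast hε.ne'
    have hzw : (ε : ℂ) * z ^ q = w := by
      rw [hz]
      field_simp
    refine ⟨z, ?_, ?_⟩
    · rw [mem_sphere_zero_iff_norm]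
      have h1 : ‖z‖ ^ q = r ^ q := by
        rw [← norm_pow, hz, norm_div, hw, Complex.norm_real, Real.norm_of_nonneg hε.le]
        field_simp
      exact (pow_left_inj₀ (norm_nonneg z) hr hq.ne').1 h1
    · change ‖∑' j, pw a ε q j * z ^ j‖ = ‖∑' k, a k * w ^ k‖
      rw [tsum_pw a ε hq z, hzw]

/-- The order of `f(ε z ^ q)` is finite, and it is larger than `q ρ` if the order of `f` is larger
than `ρ`. -/
theorem order_pw (a : ℕ → ℂ) {ε : ℝ} (hε : 0 < ε) (hε1 : ε ≤ 1) {q : ℕ} (hq : 0 < q) {ρ lam : ℝ}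
    (hρ : 0 < ρ) (ho : order a = (lam : EReal)) (hlam : ρ < lam) :
    ∃ lam' : ℝ, order (pw a ε q) = (lam' : EReal) ∧ q * ρ < lam' := by
  set φ : ℝ → ℝ := fun s => Real.log (Real.log (maxModulus a s)) / Real.log s with hφ
  set ψ : ℝ → ℝ := fun r => Real.log (Real.log (maxModulus (pw a ε q) r)) / Real.log r with hψ
  have hq' : (0 : ℝ) < q := by exact_mod_cast hq
  have hlogε : Real.log ε ≤ 0 := Real.log_nonpos hε.le hε1
  -- the substitution
  have hv : ∀ r : ℝ, 1 < r → Real.log (ε * r ^ q) / Real.log r = q + Real.log ε / Real.log r := by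
    intro r hr
    have h1 : Real.log r ≠ 0 := (Real.log_pos hr).ne'
    rw [Real.log_mul hε.ne' (by positivity), Real.log_pow, add_div, mul_div_assoc, div_self h1,
      mul_one, add_comm]
  have hlim : Tendsto (fun r : ℝ => (q : ℝ) + Real.log ε / Real.log r) atTop (nhds (q + 0)) :=
    tendsto_const_nhds.add (Tendsto.div_atTop tendsto_const_nhds Real.tendsto_log_atTop)
  rw [add_zero] at hlim
  have hs : Tendsto (fun r : ℝ => ε * r ^ q) atTop atTop :=
    (tendsto_pow_atTop hq.ne').const_mul_atTop hε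
  have hψφ : ∀ᶠ r : ℝ in atTop, ψ r = φ (ε * r ^ q) * (q + Real.log ε / Real.log r) := by
    filter_upwards [eventually_gt_atTop 1, hs.eventually_gt_atTop 1] with r hr hr'
    have h1 : Real.log (ε * r ^ q) ≠ 0 := (Real.log_pos hr').ne'
    rw [← hv r hr, hψ, hφ]
    simp only
    rw [maxModulus_pw a hε hq (by linarith), div_mul_div_comm, mul_comm (Real.log (ε * r ^ q)),
      mul_div_mul_right _ _ h1]
  have hdefa : limsup (fun s => ((φ s : ℝ) : EReal)) atTop = (lam : EReal) := ho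
  have hdefb : order (pw a ε q) = limsup (fun r => ((ψ r : ℝ) : EReal)) atTop := rfl
  -- upper bound
  have hup : order (pw a ε q) ≤ (((lam + 1) * (q + 1) : ℝ) : EReal) := by
    rw [hdefb]
    refine limsup_le_of_le (by isBoundedDefault) ?_
    have h1 : ∀ᶠ s in atTop, ((φ s : ℝ) : EReal) < ((lam + 1 : ℝ) : EReal) := by
      apply eventually_lt_of_limsup_lt _ (by isBoundedDefault)
      rw [hdefa, EReal.coe_lt_coe_iff]
      linarith
    filter_upwards [hψφ, hs.eventually h1, hlim.eventually (gt_mem_nhds (lt_add_one (q : ℝ))),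
      hlim.eventually (lt_mem_nhds hq')] with r h2 h3 h4 h5
    rw [EReal.coe_lt_coe_iff] at h3
    rw [EReal.coe_le_coe_iff, h2]
    refine (mul_le_mul_of_nonneg_right h3.le h5.le).trans ?_
    exact mul_le_mul_of_nonneg_left h4.le (by linarith)
  -- lower bound
  obtain ⟨ρ1, h01, h02⟩ := exists_between hlam
  obtain ⟨ρ2, h03, h04⟩ := exists_between h01
  have hρ1 : 0 < ρ1 := by linarith
  have hlo : ((q * ρ2 : ℝ) : EReal) ≤ order (pw a ε q) := by
    rw [hdefb]
    refine le_limsup_of_frequently_le ?_ (by isBoundedDefault)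
    have h1 : ∃ᶠ s in atTop, ((ρ1 : ℝ) : EReal) < ((φ s : ℝ) : EReal) := by
      apply frequently_lt_of_lt_limsup (by isBoundedDefault)
      rw [hdefa, EReal.coe_lt_coe_iff]
      exact h02
    have h2 : Tendsto (fun s : ℝ => (s / ε) ^ ((1 : ℝ) / q)) atTop atTop :=
      (tendsto_rpow_atTop (by positivity)).comp (tendsto_id.atTop_div_const hε)
    have h3 : ∃ᶠ r in atTop, ((ρ1 : ℝ) : EReal) < ((φ (ε * r ^ q) : ℝ) : EReal) := by
      refine h2.frequently ?_
      refine (h1.and_eventually (eventually_gt_atTop 0)).mono ?_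
      rintro s ⟨h4, h5⟩
      have h6 : ε * ((s / ε) ^ ((1 : ℝ) / q)) ^ q = s := by
        rw [← Real.rpow_natCast, ← Real.rpow_mul (div_nonneg h5.le hε.le), one_div,
          inv_mul_cancel₀ hq'.ne', Real.rpow_one]
        field_simp
      rw [h6]
      exact h4
    have h7 : (q : ℝ) * (ρ2 / ρ1) < q := by
      have : ρ2 / ρ1 < 1 := (div_lt_one hρ1).2 h04
      nlinarith
    refine ((h3.and_eventually hψφ).and_eventually (hlim.eventually (lt_mem_nhds h7))).mono ?_
    rintro r ⟨⟨h8, h9⟩, h10⟩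
    rw [EReal.coe_lt_coe_iff] at h8
    rw [EReal.coe_le_coe_iff, h9]
    have h11 : q * ρ2 = ρ1 * (q * (ρ2 / ρ1)) := by
      field_simp
    rw [h11]
    have hρ2 : 0 < ρ2 := by linarith
    have h12 : 0 < (q : ℝ) * (ρ2 / ρ1) := by positivity
    exact mul_le_mul h8.le h10.le h12.le (by linarith)
  have hne1 : order (pw a ε q) ≠ ⊤ := ne_top_of_le_ne_top (EReal.coe_ne_top _) hup
  have hne2 : order (pw a ε q) ≠ ⊥ := ne_bot_of_le_ne_bot (EReal.coe_ne_bot _) hlo
  refine ⟨(order (pw a ε q)).toReal, (EReal.coe_toReal hne1 hne2).symm, ?_⟩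
  rw [← EReal.coe_toReal hne1 hne2, EReal.coe_le_coe_iff] at hlo
  nlinarith

/-- The sections have no zeros near the origin. -/
theorem near_zero (a : ℕ → ℂ) (ha : IsEntire a) (h0 : a 0 ≠ 0) :
    ∃ δ : ℝ, 0 < δ ∧ ∀ n : ℕ, ∀ u : ℂ, ‖u‖ < δ → partialSum a n u ≠ 0 := by
  have hs : Summable (fun k => ‖a k‖) := by
    have := (ha 1).norm
    simpa using this
  set A : ℝ := ∑' k, ‖a k‖ with hA
  have hA0 : 0 ≤ A := tsum_nonneg fun k => norm_nonneg _
  have hpos : 0 < ‖a 0‖ := norm_pos_iff.2 h0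
  refine ⟨min 1 (‖a 0‖ / (A + 1)), lt_min one_pos (by positivity), fun n u hu hz => ?_⟩
  have hu1 : ‖u‖ < 1 := hu.trans_le (min_le_left _ _)
  have hu2 : ‖u‖ < ‖a 0‖ / (A + 1) := hu.trans_le (min_le_right _ _)
  unfold partialSum at hz
  rw [Finset.sum_range_succ'] at hz
  simp only [pow_zero, mul_one] at hz
  have h1 : a 0 = -∑ k ∈ range n, a (k + 1) * u ^ (k + 1) := by
    rw [eq_neg_iff_add_eq_zero, add_comm]
    exact hz
  have h2 : ‖a 0‖ ≤ ‖u‖ * A := by
    rw [h1, norm_neg]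
    refine (norm_sum_le _ _).trans ?_
    have h3 : ∀ k ∈ range n, ‖a (k + 1) * u ^ (k + 1)‖ ≤ ‖u‖ * ‖a (k + 1)‖ := by
      intro k _
      rw [norm_mul, norm_pow, pow_succ, mul_comm]
      refine mul_le_mul_of_nonneg_right ?_ (norm_nonneg _)
      exact mul_le_of_le_one_left (norm_nonneg _) (pow_le_one₀ (norm_nonneg _) hu1.le)
    refine (Finset.sum_le_sum h3).trans ?_
    rw [← Finset.mul_sum]
    refine mul_le_mul_of_nonneg_left ?_ (norm_nonneg _)
    have h4 : ∑ k ∈ range n, ‖a (k + 1)‖ ≤ ∑ k ∈ range (n + 1), ‖a k‖ := by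
      rw [Finset.sum_range_succ']
      have := norm_nonneg (a 0)
      linarith
    exact h4.trans (hs.sum_le_tsum _ fun k _ => norm_nonneg _)
  rw [lt_div_iff₀ (by positivity)] at hu2
  nlinarith [norm_nonneg u]

/-- Powers of points near the real axis. -/
theorem pow_near (q : ℕ) (s : ℝ) (hs : q * |s| ≤ 1 / 4) :
    1 / 2 ≤ ((1 + (s : ℂ) * Complex.I) ^ q).re ∧
      |((1 + (s : ℂ) * Complex.I) ^ q).im| ≤ 2 * (q * |s|) := by
  have h1 : ‖(1 + (s : ℂ) * Complex.I) ^ q - 1‖ ≤ 2 * (q * |s|) := by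
    have h2 : ‖(1 + (s : ℂ) * Complex.I) ^ q - 1‖ ≤ (1 + |s|) ^ q - 1 := by
      clear hs
      induction q with
      | zero => simp
      | succ q ih =>
        have h3 : (1 + (s : ℂ) * Complex.I) ^ (q + 1) - 1 =
            ((1 + (s : ℂ) * Complex.I) ^ q - 1) * (1 + (s : ℂ) * Complex.I) +
              (s : ℂ) * Complex.I := by ring
        rw [h3]
        refine (norm_add_le _ _).trans ?_
        rw [norm_mul]
        have h4 : ‖(s : ℂ) * Complex.I‖ = |s| := by
          rw [norm_mul, Complex.norm_I, mul_one, Complex.norm_real, Real.norm_eq_abs]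
        have h5 : ‖1 + (s : ℂ) * Complex.I‖ ≤ 1 + |s| := by
          refine (norm_add_le _ _).trans ?_
          rw [norm_one, h4]
        rw [h4]
        have h6 : (0 : ℝ) ≤ (1 + |s|) ^ q - 1 := by
          have : (1 : ℝ) ≤ (1 + |s|) ^ q := one_le_pow₀ (by linarith [abs_nonneg s])
          linarith
        have h7 := mul_le_mul ih h5 (norm_nonneg _) h6
        calc _ ≤ ((1 + |s|) ^ q - 1) * (1 + |s|) + |s| := by linarith
          _ = _ := by ring
    refine h2.trans ?_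
    have h8 : (1 + |s|) ^ q ≤ Real.exp (q * |s|) := by
      rw [Real.exp_nat_mul]
      refine pow_le_pow_left₀ (by positivity) ?_ q
      rw [add_comm]
      exact Real.add_one_le_exp _
    have h9 : Real.exp (q * |s|) ≤ 1 + 2 * (q * |s|) := by
      have h10 : 0 ≤ q * |s| := by positivity
      have h11 := Real.abs_exp_sub_one_le (x := q * |s|) (by rw [abs_of_nonneg h10]; linarith)
      rw [abs_of_nonneg h10] at h11
      linarith [le_abs_self (Real.exp (q * |s|) - 1)]
    linarith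
  have h12 := Complex.abs_re_le_norm ((1 + (s : ℂ) * Complex.I) ^ q - 1)
  have h13 := Complex.abs_im_le_norm ((1 + (s : ℂ) * Complex.I) ^ q - 1)
  rw [Complex.sub_re, Complex.one_re] at h12
  rw [Complex.sub_im, Complex.one_im, sub_zero] at h13
  constructor
  · have := neg_le_of_abs_le h12
    linarith
  · exact h13.trans h1

end Pool.Agent.Y146.SV
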