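import Mathlib
import Pool.Agent.Y146.SV.Pow

/-!
# Zero-free parabolic regions for all exponents
-/

set_option autoImplicit false

namespace Pool.Agent.Y146.SV

open Pool.Agent.Results.MP_a05d5a_an.FiniteOrderDisproof Finset Filter

/-- The image of the far part of the region. -/
theorem far_mem {τ ρ K x ε : ℝ} {q : ℕ} (hq : 0 < q) (hρ : 0 < ρ) (hρ2 : ρ ≤ 2)
    (hτ : (q : ℝ) * ρ = τ) (hK : 0 < K) (hε : 0 < ε) (hε1 : ε ≤ 1) (hx : 0 < x)
    (hx1 : K * x ^ (-(τ / 2)) ≤ 1 / (4 * q)) (w : ℂ) (hw : w.re = x)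
    (hy : |w.im| ≤ K * x ^ (1 - τ / 2)) :
    (ε : ℂ) * w ^ q ∈ Width.Freg ρ (4 * q * K) := by
  have hq' : (0 : ℝ) < q := by exact_mod_cast hq
  set s : ℝ := w.im / x with hs
  have hws : w = (x : ℂ) * (1 + (s : ℂ) * Complex.I) := by
    apply Complex.ext
    · simp [hw]
    · simp [hs]
      field_simp
  have habs : |s| ≤ K * x ^ (-(τ / 2)) := by
    rw [hs, abs_div, abs_of_pos hx, div_le_iff₀ hx, mul_assoc]
    have : x ^ (-(τ / 2)) * x = x ^ (1 - τ / 2) := by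
      nth_rewrite 2 [← Real.rpow_one x]
      rw [← Real.rpow_add hx]
      congr 1
      ring
    rw [this]
    exact hy
  have hqs : q * |s| ≤ 1 / 4 := by
    have h1 : q * |s| ≤ q * (1 / (4 * q)) := mul_le_mul_of_nonneg_left (habs.trans hx1) hq'.le
    have h2 : (q : ℝ) * (1 / (4 * q)) = 1 / 4 := by field_simp
    linarith
  obtain ⟨h1, h2⟩ := pow_near q s hqs
  have hu : (ε : ℂ) * w ^ q = ((ε * x ^ q : ℝ) : ℂ) * (1 + (s : ℂ) * Complex.I) ^ q := by
    rw [hws, mul_pow]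
    push_cast
    ring
  have hc : 0 < ε * x ^ q := by positivity
  have hre : ((ε : ℂ) * w ^ q).re = ε * x ^ q * ((1 + (s : ℂ) * Complex.I) ^ q).re := by
    rw [hu, Complex.re_ofReal_mul]
  have him : ((ε : ℂ) * w ^ q).im = ε * x ^ q * ((1 + (s : ℂ) * Complex.I) ^ q).im := by
    rw [hu, Complex.im_ofReal_mul]
  have hre1 : ε * x ^ q / 2 ≤ ((ε : ℂ) * w ^ q).re := by
    rw [hre]
    nlinarith
  refine ⟨by linarith [half_pos hc], ?_⟩
  have h3 : (ε * x ^ q / 2) ^ (1 - ρ / 2) ≤ ((ε : ℂ) * w ^ q).re ^ (1 - ρ / 2) :=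
    Real.rpow_le_rpow (by positivity) hre1 (by linarith)
  have h4 : ε * x ^ q / 2 * x ^ (-(τ / 2)) ≤ (ε * x ^ q / 2) ^ (1 - ρ / 2) := by
    have h5 : (ε * x ^ q / 2) ^ (1 - ρ / 2) =
        (ε * x ^ q / 2) * (ε * x ^ q / 2) ^ (-(ρ / 2)) := by
      nth_rewrite 2 [← Real.rpow_one (ε * x ^ q / 2)]
      rw [← Real.rpow_add (by positivity)]
      congr 1
    rw [h5]
    refine mul_le_mul_of_nonneg_left ?_ (by positivity)
    have h6 : x ^ (-(τ / 2)) = (x ^ q) ^ (-(ρ / 2)) := by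
      rw [← Real.rpow_natCast x q, ← Real.rpow_mul hx.le, ← hτ]
      congr 1
      ring
    rw [h6]
    refine Real.rpow_le_rpow_of_nonpos (by positivity) ?_ (by linarith)
    have : 0 < x ^ q := by positivity
    nlinarith
  rw [him, abs_mul, abs_of_pos hc]
  calc ε * x ^ q * |((1 + (s : ℂ) * Complex.I) ^ q).im|
      ≤ ε * x ^ q * (2 * (q * (K * x ^ (-(τ / 2))))) := by
        refine mul_le_mul_of_nonneg_left (h2.trans ?_) hc.le
        exact mul_le_mul_of_nonneg_left (mul_le_mul_of_nonneg_left habs hq'.le) two_pos.le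
    _ = 4 * q * K * (ε * x ^ q / 2 * x ^ (-(τ / 2))) := by ring
    _ ≤ 4 * q * K * ((ε : ℂ) * w ^ q).re ^ (1 - ρ / 2) :=
        mul_le_mul_of_nonneg_left (h4.trans h3) (by positivity)

theorem rpow_mid {x x₀ X p : ℝ} (hx₀ : 0 < x₀) (h1 : x₀ ≤ x) (h2 : x ≤ X) :
    x ^ p ≤ x₀ ^ p + X ^ p := by
  have hx : 0 < x := hx₀.trans_le h1
  rcases le_or_gt 0 p with hp | hp
  · have := Real.rpow_le_rpow hx.le h2 hp
    have := Real.rpow_nonneg hx₀.le p
    linarith
  · have := Real.rpow_le_rpow_of_nonpos hx₀ h1 hp.le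
    have := Real.rpow_nonneg (hx.le.trans h2) p
    linarith

/-- For every `τ > 0`, `K > 0`, `x₀ > 0` and `N ≥ 1` there is an entire function of finite order
larger than `τ` none of whose sections has a zero in the `N` regions `S_{2πj/N}(τ)`. -/
theorem main (τ K x₀ : ℝ) (N : ℕ) (hτ : 0 < τ) (hK : 0 < K) (hx₀ : 0 < x₀) (hN : 0 < N) :
    ∃ a : ℕ → ℂ, IsEntire a ∧ (∃ lam : ℝ, order a = (lam : EReal) ∧ 0 < lam ∧ τ < lam) ∧
      ∀ m j : ℕ, ∀ z ∈ region τ K x₀ (2 * Real.pi * j / N), partialSum a m z ≠ 0 := by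
  set q : ℕ := N * ⌈τ⌉₊ with hqdef
  have hceil : 0 < ⌈τ⌉₊ := Nat.ceil_pos.2 hτ
  have hq : 0 < q := Nat.mul_pos hN hceil
  have hq' : (0 : ℝ) < q := by exact_mod_cast hq
  set ρ : ℝ := τ / q with hρdef
  have hρ : 0 < ρ := by positivity
  have hτq : τ ≤ q := by
    have h1 : (⌈τ⌉₊ : ℝ) ≤ q := by
      have : ⌈τ⌉₊ ≤ q := Nat.le_mul_of_pos_left _ hN
      exact_mod_cast this
    exact (Nat.le_ceil τ).trans h1
  have hρ2 : ρ ≤ 2 := by
    rw [hρdef, div_le_iff₀ hq']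
    linarith
  have hqρ : (q : ℝ) * ρ = τ := by
    rw [hρdef]
    field_simp
  have hK' : 0 < 4 * q * K := by positivity
  obtain ⟨a, h1, h2, lam, h3, h4⟩ :=
    Pool.Agent.H208R3.SV.exists_finite_order ρ (4 * q * K) hρ hρ2 hK'
  have ha : IsEntire a := h2
  have ho : order a = (lam : EReal) := h4
  have ha0 : a 0 ≠ 0 := by
    have h5 := h1 1 le_rfl 0 ⟨le_rfl, by
      simp only [Complex.zero_im, abs_zero, Complex.zero_re]
      have : (0 : ℝ) ≤ 0 ^ (1 - ρ / 2) := Real.rpow_nonneg le_rfl _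
      positivity⟩
    simpa [Finset.sum_range_succ] using h5
  have hP : ∀ n : ℕ, ∀ u ∈ Width.Freg ρ (4 * q * K), partialSum a n u ≠ 0 := by
    intro n u hu
    rcases Nat.eq_zero_or_pos n with rfl | hn
    · simpa [partialSum] using ha0
    · exact h1 n hn u hu
  obtain ⟨δ, hδ, hnear⟩ := near_zero a ha ha0
  set X : ℝ := max 1 ((4 * q * K) ^ (2 / τ)) with hX
  have hX1 : 1 ≤ X := le_max_left _ _
  set R : ℝ := X + K * (x₀ ^ (1 - τ / 2) + X ^ (1 - τ / 2)) with hR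
  have hR0 : 0 < R := by positivity
  set ε : ℝ := min 1 (δ / (R ^ q + 1)) with hε
  have hε0 : 0 < ε := lt_min one_pos (by positivity)
  have hε1 : ε ≤ 1 := min_le_left _ _
  have hεR : ε * R ^ q < δ := by
    have h5 : ε ≤ δ / (R ^ q + 1) := min_le_right _ _
    have hRq : 0 < R ^ q := by positivity
    rw [le_div_iff₀ (by positivity)] at h5
    nlinarith
  have hfar : ∀ x : ℝ, X ≤ x → K * x ^ (-(τ / 2)) ≤ 1 / (4 * q) := by
    intro x hx
    have hx0 : 0 < x := by linarith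
    have h5 : (4 * q * K) ^ (2 / τ) ≤ x := (le_max_right _ _).trans hx
    have h6 : 4 * q * K ≤ x ^ (τ / 2) := by
      have h7 := Real.rpow_le_rpow (by positivity) h5 (show 0 ≤ τ / 2 by positivity)
      rw [← Real.rpow_mul hK'.le] at h7
      have h8 : 2 / τ * (τ / 2) = 1 := by field_simp
      rwa [h8, Real.rpow_one] at h7
    rw [Real.rpow_neg hx0.le, ← div_eq_mul_inv, div_le_div_iff₀ (by positivity) (by positivity)]
    linarith
  refine ⟨pw a ε q, entire_pw a ε hq ha, ?_, ?_⟩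
  · obtain ⟨lam', h5, h6⟩ := order_pw a hε0 hε1 hq hρ ho h3
    rw [hqρ] at h6
    exact ⟨lam', h5, by linarith, h6⟩
  · rintro m j z ⟨w, hw1, hw2, rfl⟩
    rw [partialSum_pw a ε hq]
    have hrot : (Complex.exp (((2 * Real.pi * j / N : ℝ) : ℂ) * Complex.I) * w) ^ q = w ^ q := by
      have h5 : Complex.exp (((2 * Real.pi * j / N : ℝ) : ℂ) * Complex.I) ^ q = 1 := by
        rw [← Complex.exp_nat_mul, Complex.exp_eq_one_iff]
        refine ⟨(j * ⌈τ⌉₊ : ℕ), ?_⟩
        have hN' : (N : ℂ) ≠ 0 := by exact_mod_cast hN.ne'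
        rw [hqdef]
        push_cast
        field_simp
      rw [mul_pow, h5, one_mul]
    rw [hrot]
    have hwre : 0 < w.re := hx₀.trans_le hw1
    rcases le_or_gt X w.re with h5 | h5
    · exact hP _ _ (far_mem hq hρ hρ2 hqρ hK hε0 hε1 hwre (hfar _ h5) w rfl hw2)
    · apply hnear
      rw [norm_mul, norm_pow, Complex.norm_real, Real.norm_of_nonneg hε0.le]
      have h6 : ‖w‖ ≤ R := by
        refine (Complex.norm_le_abs_re_add_abs_im w).trans ?_
        rw [abs_of_pos hwre, hR]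
        have h7 := rpow_mid (p := 1 - τ / 2) hx₀ hw1 h5.le
        have h8 := mul_le_mul_of_nonneg_left h7 hK.le
        linarith
      have h7 : ε * ‖w‖ ^ q ≤ ε * R ^ q :=
        mul_le_mul_of_nonneg_left (pow_le_pow_left₀ (norm_nonneg _) h6 q) hε0.le
      linarith

end Pool.Agent.Y146.SV
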